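import Pool.Agent.L5helper12.CV.Defs

/-! CV5: good heights, the horizontal sides and the line `Re s = 3/2`. -/

set_option autoImplicit false

open Filter Topology Set MeasureTheory Complex H370

namespace Pool.Agent.L5helper12.CV

open Pool.Agent.L5helper10.TV hiding GG
open Pool.Agent.L5helper12.PV

lemma Mk_bd5 (κ : ℝ) (hκ0 : 0 < κ) (hκ : κ ≤ 1) (z : ℂ) (h1 : -1 / 2 ≤ z.re) (h2 : z.re ≤ 3 / 2) :
    ‖Mk κ z‖ ≤ 3 := by
  unfold Mk
  have hb : ∀ x ∈ Set.uIoc (-(κ / 2)) (κ / 2), ‖cexp (x * z)‖ ≤ Real.exp 1 := by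
    intro x hx
    rw [uIoc_of_le (by linarith)] at hx
    rw [Complex.norm_exp]
    apply Real.exp_le_exp.2
    simp only [mul_re, ofReal_re, ofReal_im, zero_mul, sub_zero]
    have hx1 := hx.1
    have hx2 := hx.2
    have h3 : |x| ≤ 1 / 2 := abs_le.2 ⟨by linarith, by linarith⟩
    have h4 : |z.re| ≤ 3 / 2 := abs_le.2 ⟨by linarith, by linarith⟩
    calc x * z.re ≤ |x * z.re| := le_abs_self _
      _ = |x| * |z.re| := abs_mul _ _
      _ ≤ (1 / 2) * (3 / 2) := by gcongr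
      _ ≤ 1 := by norm_num
  have h := intervalIntegral.norm_integral_le_of_norm_le_const hb
  have h5 : |κ / 2 - -(κ / 2)| = κ := by
    rw [show κ / 2 - -(κ / 2) = κ by ring, abs_of_pos hκ0]
  rw [h5] at h
  have h6 := Real.exp_one_lt_d9
  have h7 := Real.exp_pos 1
  nlinarith

lemma Mk_cont5 (κ : ℝ) : Continuous (fun v : ℝ => Mk κ (⟨3 / 2, v⟩ : ℂ)) := by
  unfold Mk
  have h : Continuous (Function.uncurry fun (v x : ℝ) => cexp (x * (⟨3 / 2, v⟩ : ℂ))) := by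
    have e : (Function.uncurry fun (v x : ℝ) => cexp (x * (⟨3 / 2, v⟩ : ℂ))) =
        fun p : ℝ × ℝ => cexp ((p.2 : ℂ) * (((3 / 2 : ℝ) : ℂ) + (p.1 : ℂ) * I)) := by
      funext p
      obtain ⟨v, x⟩ := p
      simp only [Function.uncurry]
      rw [mk_eq]
    rw [e]
    fun_prop
  exact intervalIntegral.continuous_parametric_intervalIntegral_of_continuous' h _ _

lemma ld_conj5 (x y : ℝ) : ‖ld (⟨x, -y⟩ : ℂ)‖ = ‖ld (⟨x, y⟩ : ℂ)‖ := by
  have hc : (⟨x, -y⟩ : ℂ) = (starRingEnd ℂ) (⟨x, y⟩ : ℂ) := by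
    apply Complex.ext <;> simp
  have h1 : (starRingEnd ℂ) ∘ riemannZeta ∘ (starRingEnd ℂ) = riemannZeta := by
    funext z
    simp [riemannZeta_conj]
  have h2 : deriv riemannZeta (⟨x, -y⟩ : ℂ) = (starRingEnd ℂ) (deriv riemannZeta (⟨x, y⟩ : ℂ)) := by
    have h3 := congrFun (deriv_conj_conj (f := riemannZeta)) (⟨x, -y⟩ : ℂ)
    rw [h1] at h3
    rw [h3]
    simp only [Function.comp]
    congr 2
    apply Complex.ext <;> simp
  unfold ld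
  rw [h2, hc, riemannZeta_conj, norm_div, norm_div, RCLike.norm_conj, RCLike.norm_conj]

lemma hh_bd5 (u t x v U : ℝ) (h1 : -1 / 2 ≤ x) (h2 : x ≤ 3 / 2) (hv : v = U ∨ v = -U) (hU : 0 ≤ U) :
    ‖hh u t (⟨x, v⟩ : ℂ)‖ ≤ Real.exp (|u| + 1 / 2 + 2 * |t| + 2) * Real.exp (-2 * U) := by
  rw [norm_hh, ← Real.exp_add, ← Real.exp_add]
  apply Real.exp_le_exp.2
  have h3 : |x - 1 / 2| ≤ 1 := abs_le.2 ⟨by linarith, by linarith⟩
  have h4 : u * (x - 1 / 2) ≤ |u| := by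
    calc u * (x - 1 / 2) ≤ |u * (x - 1 / 2)| := le_abs_self _
      _ = |u| * |x - 1 / 2| := abs_mul _ _
      _ ≤ |u| * 1 := by gcongr
      _ = |u| := mul_one _
  have h5 : (x - 1 / 2) ^ 2 ≤ 1 := by
    rw [← sq_abs]
    nlinarith [abs_nonneg (x - 1 / 2)]
  have h6 : U - |t| ≤ |v - t| := by
    have h7 : |v| = U := by
      rcases hv with h | h
      · rw [h, abs_of_nonneg hU]
      · rw [h, abs_neg, abs_of_nonneg hU]
    have h8 := abs_sub_abs_le_abs_sub v t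
    linarith
  have h9 : 4 * |v - t| - 4 ≤ (v - t) ^ 2 := by
    rw [← sq_abs (v - t)]
    nlinarith [sq_nonneg (|v - t| - 2)]
  nlinarith

lemma small5 (C : ℝ) : Tendsto (fun n : ℕ => C * ((Real.log ((n : ℝ) + 3)) ^ 2 * Real.exp (-2 * ((n : ℝ) + 3))))
    atTop (𝓝 0) := by
  have h0 : Tendsto (fun n : ℕ => (n : ℝ) + 3) atTop atTop :=
    tendsto_atTop_add_const_right _ _ tendsto_natCast_atTop_atTop
  have h1 : Tendsto (fun n : ℕ => ((n : ℝ) + 3) ^ 2 * Real.exp (-((n : ℝ) + 3))) atTop (𝓝 0) :=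
    (Real.tendsto_pow_mul_exp_neg_atTop_nhds_zero 2).comp h0
  have h2 : Tendsto (fun n : ℕ => (Real.log ((n : ℝ) + 3)) ^ 2 * Real.exp (-2 * ((n : ℝ) + 3))) atTop (𝓝 0) := by
    refine squeeze_zero (fun n => by positivity) (fun n => ?_) h1
    have h3 : (0 : ℝ) ≤ n := Nat.cast_nonneg n
    have h4 : 0 ≤ Real.log ((n : ℝ) + 3) := Real.log_nonneg (by linarith)
    have h5 : Real.log ((n : ℝ) + 3) ≤ (n : ℝ) + 3 := by
      have := Real.log_le_sub_one_of_pos (show (0 : ℝ) < (n : ℝ) + 3 by linarith)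
      linarith
    have h6 : Real.exp (-2 * ((n : ℝ) + 3)) ≤ Real.exp (-((n : ℝ) + 3)) := by
      apply Real.exp_le_exp.2
      linarith
    gcongr
  have h3 := h2.const_mul C
  rwa [mul_zero] at h3

theorem heights : ∃ Un : ℕ → ℝ, Tendsto Un atTop atTop ∧ (∀ n, good (Un n)) ∧
    ∀ κ u t : ℝ, 0 < κ → κ ≤ 1 →
      Tendsto (fun n => (∫ x in (-1 / 2 : ℝ)..(3 / 2), ld (⟨x, -(Un n)⟩ : ℂ) *
          (hh u t (⟨x, -(Un n)⟩ : ℂ) * Mk κ (⟨x, -(Un n)⟩ : ℂ)))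
        - (∫ x in (-1 / 2 : ℝ)..(3 / 2), ld (⟨x, Un n⟩ : ℂ) * (hh u t (⟨x, Un n⟩ : ℂ) * Mk κ (⟨x, Un n⟩ : ℂ))))
        atTop (𝓝 0) ∧
      Tendsto (fun n => ∫ y in (-(Un n))..(Un n), ld (⟨3 / 2, y⟩ : ℂ) *
          (hh u t (⟨3 / 2, y⟩ : ℂ) * Mk κ (⟨3 / 2, y⟩ : ℂ))) atTop
        (𝓝 (-∫ v : ℝ, DD lamc (⟨3 / 2, v⟩ : ℂ) * (hh u t (⟨3 / 2, v⟩ : ℂ) * Mk κ (⟨3 / 2, v⟩ : ℂ)))) := by
  obtain ⟨C, hC, hgh⟩ := good_height good_zeta
  have hex : ∀ n : ℕ, ∃ U : ℝ, U ∈ Set.Icc ((n : ℝ) + 3) ((n : ℝ) + 3 + 1) ∧ ∀ σ ∈ Set.Icc (-1 / 2 : ℝ) (3 / 2),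
      riemannZeta (⟨σ, U⟩ : ℂ) ≠ 0 ∧
      ‖deriv riemannZeta (⟨σ, U⟩ : ℂ) / riemannZeta (⟨σ, U⟩ : ℂ)‖ ≤ C * (Real.log ((n : ℝ) + 3)) ^ 2 := by
    intro n
    have h3 : (0 : ℝ) ≤ n := Nat.cast_nonneg n
    exact hgh ((n : ℝ) + 3) (by linarith)
  choose Un hUn hld using hex
  have hUtop : Tendsto Un atTop atTop := by
    have h0 : Tendsto (fun n : ℕ => (n : ℝ) + 3) atTop atTop :=
      tendsto_atTop_add_const_right _ _ tendsto_natCast_atTop_atTop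
    exact tendsto_atTop_mono (fun n => (hUn n).1) h0
  refine ⟨Un, hUtop, fun n => ⟨?_, fun σ hσ => (hld n σ hσ).1⟩, ?_⟩
  · have h3 : (0 : ℝ) ≤ n := Nat.cast_nonneg n
    linarith [(hUn n).1]
  intro κ u t hκ0 hκ
  have hD0 := D0_nonneg
  refine ⟨?_, ?_⟩
  · set K : ℝ := C * (Real.exp (|u| + 1 / 2 + 2 * |t| + 2)) * 3 with hK
    have hU0 : ∀ n, 0 ≤ Un n := by
      intro n
      have h3 : (0 : ℝ) ≤ n := Nat.cast_nonneg n
      linarith [(hUn n).1]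
    have hside : ∀ (n : ℕ) (v : ℝ), (v = Un n ∨ v = -(Un n)) →
        ‖∫ x in (-1 / 2 : ℝ)..(3 / 2), ld (⟨x, v⟩ : ℂ) * (hh u t (⟨x, v⟩ : ℂ) * Mk κ (⟨x, v⟩ : ℂ))‖ ≤
          2 * K * ((Real.log ((n : ℝ) + 3)) ^ 2 * Real.exp (-2 * ((n : ℝ) + 3))) := by
      intro n v hv
      have hb : ∀ x ∈ Set.uIoc (-1 / 2 : ℝ) (3 / 2),
          ‖ld (⟨x, v⟩ : ℂ) * (hh u t (⟨x, v⟩ : ℂ) * Mk κ (⟨x, v⟩ : ℂ))‖ ≤
            K * ((Real.log ((n : ℝ) + 3)) ^ 2 * Real.exp (-2 * ((n : ℝ) + 3))) := by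
        intro x hx
        rw [uIoc_of_le (by norm_num)] at hx
        have hx1 : -1 / 2 ≤ x := hx.1.le
        have hx2 : x ≤ 3 / 2 := hx.2
        have b1 : ‖ld (⟨x, v⟩ : ℂ)‖ ≤ C * (Real.log ((n : ℝ) + 3)) ^ 2 := by
          have h := (hld n x ⟨hx1, hx2⟩).2
          rcases hv with h0 | h0
          · rw [h0]; exact h
          · rw [h0, ld_conj5]; exact h
        have b2 : ‖hh u t (⟨x, v⟩ : ℂ)‖ ≤
            Real.exp (|u| + 1 / 2 + 2 * |t| + 2) * Real.exp (-2 * ((n : ℝ) + 3)) := by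
          refine (hh_bd5 u t x v (Un n) hx1 hx2 hv (hU0 n)).trans ?_
          apply mul_le_mul_of_nonneg_left _ (Real.exp_pos _).le
          apply Real.exp_le_exp.2
          linarith [(hUn n).1]
        have b3 := Mk_bd5 κ hκ0 hκ (⟨x, v⟩ : ℂ) hx1 hx2
        rw [norm_mul, norm_mul]
        calc ‖ld (⟨x, v⟩ : ℂ)‖ * (‖hh u t (⟨x, v⟩ : ℂ)‖ * ‖Mk κ (⟨x, v⟩ : ℂ)‖)
            ≤ (C * (Real.log ((n : ℝ) + 3)) ^ 2) *
              ((Real.exp (|u| + 1 / 2 + 2 * |t| + 2) * Real.exp (-2 * ((n : ℝ) + 3))) * 3) := by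
              apply mul_le_mul b1 _ (by positivity) (by positivity)
              exact mul_le_mul b2 b3 (norm_nonneg _) (by positivity)
          _ = K * ((Real.log ((n : ℝ) + 3)) ^ 2 * Real.exp (-2 * ((n : ℝ) + 3))) := by
              rw [hK]; ring
      have h := intervalIntegral.norm_integral_le_of_norm_le_const hb
      rw [show |(3 / 2 : ℝ) - (-1 / 2)| = 2 by norm_num] at h
      refine h.trans (le_of_eq ?_)
      ring
    refine squeeze_zero_norm (fun n => ?_) (small5 (4 * K))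
    have ha := hside n (-(Un n)) (Or.inr rfl)
    have hb := hside n (Un n) (Or.inl rfl)
    refine (norm_sub_le _ _).trans ?_
    linarith
  · have hlam : ∀ n, ‖lamc n‖ ≤ ArithmeticFunction.vonMangoldt n := lamc_norm
    have hint : Integrable (fun v : ℝ => DD lamc (⟨3 / 2, v⟩ : ℂ) *
        (hh u t (⟨3 / 2, v⟩ : ℂ) * Mk κ (⟨3 / 2, v⟩ : ℂ))) := by
      have hG := ((gauss_int t (1 / 2) (by norm_num)).const_mul
        (D0 * (Real.exp (u * (3 / 2 - 1 / 2)) * Real.exp (1 / 2) * 3)))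
      refine hG.mono' ?_ (Eventually.of_forall fun v => ?_)
      · exact ((DD_cont lamc hlam).mul ((hh_cont_line u t (3 / 2)).mul (Mk_cont5 κ))).aestronglyMeasurable
      · rw [norm_mul, norm_mul, norm_hh]
        have e2 : Real.exp (((3 / 2 - 1 / 2 : ℝ) ^ 2 - (v - t) ^ 2) / 2) =
            Real.exp (1 / 2) * Real.exp (-(1 / 2) * (v - t) ^ 2) := by
          rw [← Real.exp_add]; congr 1; ring
        rw [e2]
        have b3 := Mk_bd5 κ hκ0 hκ (⟨3 / 2, v⟩ : ℂ) (by norm_num) (by norm_num)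
        calc ‖DD lamc (⟨3 / 2, v⟩ : ℂ)‖ * (Real.exp (u * (3 / 2 - 1 / 2)) *
              (Real.exp (1 / 2) * Real.exp (-(1 / 2) * (v - t) ^ 2)) * ‖Mk κ (⟨3 / 2, v⟩ : ℂ)‖)
            ≤ D0 * (Real.exp (u * (3 / 2 - 1 / 2)) *
              (Real.exp (1 / 2) * Real.exp (-(1 / 2) * (v - t) ^ 2)) * 3) := by
              apply mul_le_mul (norm_DD lamc hlam v) _ (by positivity) hD0
              exact mul_le_mul_of_nonneg_left b3 (by positivity)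
          _ = _ := by ring
    have hF : ∀ y : ℝ, ld (⟨3 / 2, y⟩ : ℂ) * (hh u t (⟨3 / 2, y⟩ : ℂ) * Mk κ (⟨3 / 2, y⟩ : ℂ)) =
        -(DD lamc (⟨3 / 2, y⟩ : ℂ) * (hh u t (⟨3 / 2, y⟩ : ℂ) * Mk κ (⟨3 / 2, y⟩ : ℂ))) := by
      intro y
      unfold ld
      rw [ld_zeta (⟨3 / 2, y⟩ : ℂ) (by norm_num)]
      unfold DD
      ring
    simp_rw [hF]
    rw [← integral_neg]
    exact intervalIntegral_tendsto_integral hint.neg (tendsto_neg_atTop_atBot.comp hUtop) hUtop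

end Pool.Agent.L5helper12.CV
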