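import Pool.Agent.L5helper13.KM.Defs

set_option autoImplicit false

namespace Pool.Agent.L5helper13.KM

open MvPolynomial Finset

lemma coeff_X_mul_pderiv_KM (i : Fin 2) (P : MvPolynomial (Fin 2) ℂ) (e : Ex) :
    coeff e (X i * pderiv i P) = (e i : ℂ) * coeff e P := by
  induction P using MvPolynomial.induction_on' with
  | monomial m r =>
    rw [X_mul_pderiv_monomial, coeff_smul, coeff_monomial]
    split_ifs with h
    · subst h
      simp
    · simp
  | add p q hp hq =>
    rw [map_add, mul_add, coeff_add, coeff_add, hp, hq]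
    ring

theorem kel_of_br (P Q : MvPolynomial (Fin 2) ℂ)
    (h : pderiv 0 P * pderiv 1 Q - pderiv 1 P * pderiv 0 Q = 1) :
    Kel (fun e => coeff e P) (fun e => coeff e Q) := by
  intro m
  have h1 : (X 0 * pderiv 0 P) * (X 1 * pderiv 1 Q) - (X 1 * pderiv 1 P) * (X 0 * pderiv 0 Q) =
      (X 0 * X 1 : MvPolynomial (Fin 2) ℂ) := by
    linear_combination (X 0 * X 1) * h
  have h2 := congrArg (coeff m) h1
  rw [coeff_sub, coeff_mul, coeff_mul, ← sum_sub_distrib] at h2
  have h3 : (X 0 * X 1 : MvPolynomial (Fin 2) ℂ) = monomial (Finsupp.single 0 1 + Finsupp.single 1 1) 1 := by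
    rw [X, X, monomial_mul, one_mul]
  rw [h3, coeff_monomial] at h2
  unfold Phi
  have h4 : (if m = Finsupp.single 0 1 + Finsupp.single 1 1 then (1 : ℂ) else 0) =
      if Finsupp.single 0 1 + Finsupp.single 1 1 = m then 1 else 0 := by
    by_cases hm : m = Finsupp.single 0 1 + Finsupp.single 1 1
    · rw [if_pos hm, if_pos hm.symm]
    · rw [if_neg hm, if_neg (fun h' => hm h'.symm)]
  rw [h4, ← h2]
  refine sum_congr rfl fun p _ => ?_
  rw [coeff_X_mul_pderiv_KM, coeff_X_mul_pderiv_KM, coeff_X_mul_pderiv_KM, coeff_X_mul_pderiv_KM]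
  ring

end Pool.Agent.L5helper13.KM
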