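import Pool.Agent.L5helper31.TG.Defs

set_option autoImplicit false

open MeasureTheory Finset

namespace Pool.Agent.L5helper31.TG

lemma TG3_dot_cont {n : ℕ} (l : Fin n → ℤ) : Continuous (fun x : Fin n → ℝ => dot l x) := by
  unfold dot
  fun_prop

lemma TG3_closed {n : ℕ} (L : Finset (Fin n → ℤ)) : IsClosed (polytope L) := by
  have h : polytope L = ⋂ l ∈ L, {x | -1 ≤ dot l x} := by
    ext x
    simp [polytope]
  rw [h]
  exact isClosed_biInter fun l _ => isClosed_le continuous_const (TG3_dot_cont l)

/-- TG3. The polytope is closed. Its image under the affine map given by `n` of the vectors. -/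
theorem change {n : ℕ} (L : Finset (Fin n → ℤ)) (hb : Bornology.IsBounded (polytope L))
    (hc : ∀ i, ∫ x in polytope L, x i = 0) (M : Fin n → (Fin n → ℤ)) (hM : (Matrix.of M).det ≠ 0) :
    ∃ K : Set (Fin n → ℝ), MeasurableSet K ∧ Bornology.IsBounded K ∧
      (∀ y, y ∈ K ↔ ∃ x ∈ polytope L, ∀ i, y i = dot (M i) x + 1) ∧
      volume.real K = |((Matrix.of M).det : ℝ)| * volume.real (polytope L) ∧
      ∀ i, ∫ y in K, y i = volume.real K := by
  set P := polytope L with hP
  have hPc : IsCompact P := Metric.isCompact_of_isClosed_isBounded (TG3_closed L) hb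
  have hPm : MeasurableSet P := (TG3_closed L).measurableSet
  set B : Matrix (Fin n) (Fin n) ℝ := (Matrix.of M).map (Int.castRingHom ℝ) with hB
  have hdet : B.det = ((Matrix.of M).det : ℝ) := by
    rw [hB, ← RingHom.mapMatrix_apply, ← RingHom.map_det]
    rfl
  have hdet0 : B.det ≠ 0 := by
    rw [hdet]
    exact_mod_cast hM
  set A : (Fin n → ℝ) →L[ℝ] (Fin n → ℝ) := LinearMap.toContinuousLinearMap (Matrix.toLin' B) with hA
  have hAapp : ∀ x i, A x i = dot (M i) x := by
    intro x i
    rw [hA]
    simp only [LinearMap.coe_toContinuousLinearMap', Matrix.toLin'_apply, Matrix.mulVec, dotProduct,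
      dot, hB, Matrix.map_apply, Matrix.of_apply]
    rfl
  have hAdet : A.det = B.det := by
    rw [hA]
    unfold ContinuousLinearMap.det
    rw [LinearMap.coe_toContinuousLinearMap, LinearMap.det_toLin']
  have hinj : Function.Injective A := by
    intro x y hxy
    have h1 : Matrix.mulVec B x = Matrix.mulVec B y := hxy
    exact Matrix.mulVec_injective_of_isUnit ((Matrix.isUnit_iff_isUnit_det B).2 (isUnit_iff_ne_zero.2 hdet0)) h1
  set f : (Fin n → ℝ) → (Fin n → ℝ) := fun x => A x + fun _ => 1 with hf
  have hfapp : ∀ x i, f x i = dot (M i) x + 1 := by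
    intro x i
    rw [hf]
    show A x i + 1 = _
    rw [hAapp]
  have hfc : Continuous f := A.continuous.add continuous_const
  have hfinj : Set.InjOn f P := by
    intro x _ y _ hxy
    have h1 : A x + (fun _ => (1 : ℝ)) = A y + fun _ => 1 := hxy
    exact hinj (add_right_cancel h1)
  have hder : ∀ x ∈ P, HasFDerivWithinAt f A P x := fun x _ =>
    (A.hasFDerivAt.add_const _).hasFDerivWithinAt
  have hKc : IsCompact (f '' P) := hPc.image hfc
  have hcv : ∀ g : (Fin n → ℝ) → ℝ, ∫ y in f '' P, g y = |B.det| * ∫ x in P, g (f x) := by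
    intro g
    rw [integral_image_eq_integral_abs_det_fderiv_smul volume hPm hder hfinj g]
    simp only [smul_eq_mul]
    rw [integral_const_mul, hAdet]
  have hvol : volume.real (f '' P) = |B.det| * volume.real P := by
    have h1 := hcv (fun _ => 1)
    simpa using h1
  refine ⟨f '' P, hKc.measurableSet, hKc.isBounded, fun y => ?_, ?_, fun i => ?_⟩
  · constructor
    · rintro ⟨x, hx, rfl⟩
      exact ⟨x, hx, fun i => hfapp x i⟩
    · rintro ⟨x, hx, h⟩
      exact ⟨x, hx, funext fun i => by rw [hfapp, h i]⟩
  · rw [hvol, hdet]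
  · rw [hcv (fun y => y i), hvol]
    congr 1
    have hint : ∀ j, IntegrableOn (fun x : Fin n → ℝ => (M i j : ℝ) * x j) P := fun j =>
      (by fun_prop : Continuous fun x : Fin n → ℝ => (M i j : ℝ) * x j).continuousOn.integrableOn_compact hPc
    have h1 : ∫ x in P, dot (M i) x = 0 := by
      unfold dot
      rw [integral_finsetSum _ fun j _ => hint j]
      refine sum_eq_zero fun j _ => ?_
      rw [integral_const_mul, hc j, mul_zero]
    have h2 : IntegrableOn (fun x : Fin n → ℝ => dot (M i) x) P :=
      (TG3_dot_cont (M i)).continuousOn.integrableOn_compact hPc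
    have h3 : IntegrableOn (fun _ : Fin n → ℝ => (1 : ℝ)) P :=
      continuous_const.continuousOn.integrableOn_compact hPc
    simp_rw [hfapp]
    rw [integral_add h2 h3, h1, zero_add]
    simp

end Pool.Agent.L5helper31.TG
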