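import Pool.Agent.L5helper32.GP.Defs
import Pool.Agent.L5helper25.GR.Exist

/-! Existence of independent random profinite integers (factorial digits). -/

set_option autoImplicit false

open Finset MeasureTheory ProbabilityTheory

namespace Pool.Agent.L5helper50.GP

open Pool.Agent.L5helper32.GR (law law_prob law_real)

/-- the law of the factorial digits -/
noncomputable def nu : Measure (ℕ → ℕ) := Measure.infinitePi (fun k => law (k + 1))

instance nu_prob : IsProbabilityMeasure nu := by
  unfold nu
  infer_instance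

/-- the digit times the factorial -/
def dg (i : ℕ) (x : ℕ → ℕ) : ℕ := x i * i.factorial

/-- the integer given by the first digits -/
def SS (k : ℕ) (x : ℕ → ℕ) : ℕ := ∑ i ∈ range k, dg i x

lemma dg_meas (i : ℕ) : Measurable (dg i) :=
  (measurable_of_countable (fun y : ℕ => y * i.factorial)).comp (measurable_pi_apply i)

lemma SS_meas (k : ℕ) : Measurable (SS k) := by
  unfold SS
  exact Finset.measurable_sum _ fun i _ => dg_meas i

lemma dg_indep : iIndepFun dg nu := by
  unfold nu
  exact iIndepFun_infinitePi (P := fun k => law (k + 1)) (X := fun i (y : ℕ) => y * i.factorial)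
    (fun i => measurable_of_countable _)

lemma dg_val (k d : ℕ) (hd : d < k + 1) : nu.real {x | dg k x = d * k.factorial} = 1 / ((k : ℝ) + 1) := by
  have h0 : {x : ℕ → ℕ | dg k x = d * k.factorial} = (fun x : ℕ → ℕ => x k) ⁻¹' {d} := by
    ext x
    constructor
    · intro h
      exact Nat.eq_of_mul_eq_mul_right k.factorial_pos h
    · intro h
      have h' : x k = d := h
      show x k * k.factorial = d * k.factorial
      rw [h']
  rw [h0]
  have h1 := (measurePreserving_eval_infinitePi (fun k : ℕ => law (k + 1)) k).measureReal_preimage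
    (s := {d}) (measurableSet_singleton d).nullMeasurableSet
  have h2 : nu.real ((fun x : ℕ → ℕ => x k) ⁻¹' {d}) = (law (k + 1)).real {d} := h1
  rw [h2, law_real hd]
  push_cast
  rfl

lemma SS_succ (k : ℕ) (x : ℕ → ℕ) : SS (k + 1) x = SS k x + dg k x := by
  unfold SS
  rw [sum_range_succ]

lemma low (k : ℕ) : ∀ s < k.factorial, 1 / (k.factorial : ℝ) ≤ nu.real {x | SS k x = s} := by
  induction k with
  | zero =>
    intro s hs
    have h0 : s = 0 := by
      rw [Nat.factorial_zero] at hs
      omega
    subst h0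
    have h1 : {x : ℕ → ℕ | SS 0 x = 0} = Set.univ := by
      ext x
      simp [SS]
    rw [h1]
    simp
  | succ k ih =>
    intro s hs
    have hk := k.factorial_pos
    have hd : s / k.factorial < k + 1 := by
      rw [Nat.div_lt_iff_lt_mul hk]
      rwa [Nat.factorial_succ] at hs
    have hs0 : s % k.factorial < k.factorial := Nat.mod_lt _ hk
    have hsub : {x : ℕ → ℕ | SS k x = s % k.factorial} ∩ {x | dg k x = (s / k.factorial) * k.factorial} ⊆
        {x | SS (k + 1) x = s} := by
      rintro x ⟨h1, h2⟩
      have h1' : SS k x = s % k.factorial := h1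
      have h2' : dg k x = (s / k.factorial) * k.factorial := h2
      show SS (k + 1) x = s
      rw [SS_succ, h1', h2']
      exact Nat.mod_add_div' s k.factorial
    have hI : IndepFun (∑ i ∈ range k, dg i) (dg k) nu :=
      dg_indep.indepFun_finsetSum_of_notMem (fun i => dg_meas i) (by simp)
    have hS : (∑ i ∈ range k, dg i) = SS k := by
      funext x
      simp [SS]
    rw [hS] at hI
    have h3 := hI.measure_inter_preimage_eq_mul {s % k.factorial} {(s / k.factorial) * k.factorial}
      (measurableSet_singleton _) (measurableSet_singleton _)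
    have h4 : nu.real ({x : ℕ → ℕ | SS k x = s % k.factorial} ∩
        {x | dg k x = (s / k.factorial) * k.factorial}) =
        nu.real {x | SS k x = s % k.factorial} * nu.real {x | dg k x = (s / k.factorial) * k.factorial} := by
      rw [measureReal_def, measureReal_def, measureReal_def, ← ENNReal.toReal_mul]
      exact congrArg ENNReal.toReal h3
    calc 1 / ((k + 1).factorial : ℝ) = 1 / (k.factorial : ℝ) * (1 / ((k : ℝ) + 1)) := by
          rw [Nat.factorial_succ]
          push_cast
          rw [one_div_mul_one_div, mul_comm]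
      _ ≤ nu.real {x | SS k x = s % k.factorial} * (1 / ((k : ℝ) + 1)) :=
          mul_le_mul_of_nonneg_right (ih _ hs0) (by positivity)
      _ = nu.real ({x : ℕ → ℕ | SS k x = s % k.factorial} ∩
            {x | dg k x = (s / k.factorial) * k.factorial}) := by
          rw [h4, dg_val k _ hd]
      _ ≤ nu.real {x | SS (k + 1) x = s} := measureReal_mono hsub

/-- the residue modulo `m` -/
def RR (m : ℕ) (x : ℕ → ℕ) : ℕ := SS m x % m

lemma RR_meas (m : ℕ) : Measurable (RR m) :=
  (measurable_of_countable (fun y : ℕ => y % m)).comp (SS_meas m)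

lemma low2 (m : ℕ) (hm : 0 < m) (t : ℕ) (ht : t < m) : 1 / (m : ℝ) ≤ nu.real {x | RR m x = t} := by
  obtain ⟨k, rfl⟩ : ∃ k, m = k + 1 := ⟨m - 1, by omega⟩
  have hsub : (⋃ j ∈ range k.factorial, {x : ℕ → ℕ | SS (k + 1) x = t + (k + 1) * j}) ⊆
      {x | RR (k + 1) x = t} := by
    intro x hx
    simp only [Set.mem_iUnion] at hx
    obtain ⟨j, _, hj⟩ := hx
    have hj' : SS (k + 1) x = t + (k + 1) * j := hj
    show SS (k + 1) x % (k + 1) = t
    rw [hj', Nat.add_mul_mod_self_left, Nat.mod_eq_of_lt ht]
  have hlow : ∀ j ∈ range k.factorial,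
      1 / ((k + 1).factorial : ℝ) ≤ nu.real {x : ℕ → ℕ | SS (k + 1) x = t + (k + 1) * j} := by
    intro j hj
    apply low
    rw [mem_range] at hj
    rw [Nat.factorial_succ]
    nlinarith
  have hdis : nu.real (⋃ j ∈ range k.factorial, {x : ℕ → ℕ | SS (k + 1) x = t + (k + 1) * j}) =
      ∑ j ∈ range k.factorial, nu.real {x : ℕ → ℕ | SS (k + 1) x = t + (k + 1) * j} := by
    apply measureReal_biUnion_finset
    · intro i _ j _ hij
      refine Set.disjoint_left.2 fun x hx hx' => hij ?_
      have h1 : SS (k + 1) x = t + (k + 1) * i := hx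
      have h2 : SS (k + 1) x = t + (k + 1) * j := hx'
      have h3 : (k + 1) * i = (k + 1) * j := by omega
      exact Nat.eq_of_mul_eq_mul_left (by omega) h3
    · intro j _
      exact SS_meas (k + 1) (measurableSet_singleton _)
    · intro j _
      exact measure_ne_top _ _
  calc 1 / ((k + 1 : ℕ) : ℝ) = ∑ j ∈ range k.factorial, 1 / ((k + 1).factorial : ℝ) := by
        rw [sum_const, card_range, nsmul_eq_mul, Nat.factorial_succ]
        have hk : (k.factorial : ℝ) ≠ 0 := by exact_mod_cast k.factorial_ne_zero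
        push_cast
        field_simp
    _ ≤ ∑ j ∈ range k.factorial, nu.real {x : ℕ → ℕ | SS (k + 1) x = t + (k + 1) * j} :=
        sum_le_sum hlow
    _ ≤ nu.real {x | RR (k + 1) x = t} := by
        rw [← hdis]
        exact measureReal_mono hsub

lemma RR_unif (m : ℕ) (hm : 0 < m) (t : ℕ) (ht : t < m) : nu.real {x | RR m x = t} = 1 / m := by
  have hsum : ∑ t ∈ range m, nu.real {x | RR m x = t} ≤ 1 := by
    rw [← measureReal_biUnion_finset]
    · exact measureReal_le_one
    · intro i _ j _ hij
      refine Set.disjoint_left.2 fun x hx hx' => hij ?_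
      have h1 : RR m x = i := hx
      have h2 : RR m x = j := hx'
      rw [← h1, h2]
    · intro j _
      exact RR_meas m (measurableSet_singleton _)
  have hm' : (m : ℝ) ≠ 0 := by exact_mod_cast hm.ne'
  have h1 : ∑ t ∈ range m, (1 / (m : ℝ)) = 1 := by
    rw [sum_const, card_range, nsmul_eq_mul]
    field_simp
  by_contra hne
  have hlt : 1 / (m : ℝ) < nu.real {x | RR m x = t} := lt_of_le_of_ne (low2 m hm t ht) (Ne.symm hne)
  have h2 : ∑ t ∈ range m, (1 / (m : ℝ)) < ∑ t ∈ range m, nu.real {x | RR m x = t} :=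
    sum_lt_sum (fun i hi => low2 m hm i (mem_range.1 hi)) ⟨t, mem_range.2 ht, hlt⟩
  rw [h1] at h2
  linarith

lemma SS_modEq (m k : ℕ) (hm : 0 < m) (hk : m ≤ k) (x : ℕ → ℕ) : SS k x % m = SS m x % m := by
  induction k, hk using Nat.le_induction with
  | base => rfl
  | succ k hk ih =>
    rw [SS_succ, Nat.add_mod, ih]
    have h1 : m ∣ dg k x := (Nat.dvd_factorial hm hk).mul_left _
    rw [Nat.mod_eq_zero_of_dvd h1, add_zero, Nat.mod_mod]

end Pool.Agent.L5helper50.GP

namespace Pool.Agent.L5helper32.GP

open Pool.Agent.L5helper50.GP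

/-- There are such random profinite integers. -/
theorem exists_prof : ∃ (Ω : Type) (_ : MeasurableSpace Ω) (μ : Measure Ω)
    (U : ℕ → ℕ → Ω → ℕ), IsProbabilityMeasure μ ∧ Prof μ U := by
  refine ⟨ℕ → (ℕ → ℕ), inferInstance, Measure.infinitePi (fun _ : ℕ => nu),
    fun c m ω => RR m (ω c), inferInstance, ⟨fun c m => ?_, fun c m m' hm' hmm ω => ?_,
      fun c m hm t ht => ?_, ?_⟩⟩
  · exact (RR_meas m).comp (measurable_pi_apply c)
  · have hm : 0 < m := Nat.pos_of_dvd_of_pos hmm hm'
    show SS m (ω c) % m = (SS m' (ω c) % m') % m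
    rw [Nat.mod_mod_of_dvd _ hmm, SS_modEq m m' hm (Nat.le_of_dvd hm' hmm)]
  · have h1 := (measurePreserving_eval_infinitePi (fun _ : ℕ => nu) c).measureReal_preimage
      (s := {x | RR m x = t}) ((RR_meas m) (measurableSet_singleton t)).nullMeasurableSet
    rw [← RR_unif m hm t ht, ← h1]
    rfl
  · exact iIndepFun_infinitePi (P := fun _ : ℕ => nu) (X := fun (_ : ℕ) (x : ℕ → ℕ) (m : ℕ) => RR m x)
      fun _ => measurable_pi_lambda _ fun m => RR_meas m

end Pool.Agent.L5helper32.GP
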