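import Pool.Agent.L5helper32.GP.D.Defs

/-!
# The proportion of the prime zeros

`proportion_of`: the statement D10 (`proportion`) of helper32's list, from `ae_density`,
`step_prime`, `step_comp` and `zeros_tendsto`, which are taken as hypotheses.
-/

set_option autoImplicit false
set_option maxHeartbeats 4000000

open Finset MeasureTheory ProbabilityTheory Filter Topology

namespace Pool.Agent.L5helper32.GP

open Pool.Agent.L5helper32.GR (Root w pr sg Dep lev q)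

namespace PropAux

theorem core {θ : ℝ} {a z : ℕ → ℝ} (hz : Tendsto z atTop atTop)
    (h1 : ∀ ε : ℝ, 0 < ε → ∀ᶠ X in atTop, a X ≤ (θ + ε) * z X)
    (h2 : ∀ ε : ℝ, 0 < ε → ∃ N : ℝ, ∀ᶠ X in atTop, (θ - ε) * z X - N ≤ a X) :
    Tendsto (fun X => a X / z X) atTop (𝓝 θ) := by
  rw [Metric.tendsto_nhds]
  intro ε hε
  obtain ⟨N, hN⟩ := h2 (ε / 4) (by positivity)
  filter_upwards [h1 (ε / 4) (by positivity), hN, hz.eventually_ge_atTop (max 1 (4 * |N| / ε))]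
    with X hX1 hX2 hX3
  have hz1 : 1 ≤ z X := (le_max_left _ _).trans hX3
  have hz2 : 4 * |N| / ε ≤ z X := (le_max_right _ _).trans hX3
  have hzp : 0 < z X := by linarith
  have hN4 : |N| ≤ ε / 4 * z X := by
    rw [div_le_iff₀ hε] at hz2
    nlinarith
  have hN5 : N ≤ ε / 4 * z X := (le_abs_self N).trans hN4
  rw [Real.dist_eq, abs_lt]
  constructor
  · have : θ - ε / 2 ≤ a X / z X := by
      rw [le_div_iff₀ hzp]; nlinarith
    linarith
  · have : a X / z X ≤ θ + ε / 4 := by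
      rw [div_le_iff₀ hzp]; nlinarith
    linarith

end PropAux

variable {Ω : Type} [MeasurableSpace Ω] {μ : Measure Ω} [IsProbabilityMeasure μ]
  {T : ℕ × ℕ × ℕ → Ω → ℕ}

namespace PropAux

theorem dep_qp (p n : ℕ) : Dep (bx {n} (q p n + n + 2))
    {f : ℕ × ℕ × ℕ → ℕ | DQPrime p (cur f n) n} := by
  intro f g hfg
  have h1 : ∀ r, r ^ 2 ≤ q p n → f (n, r, 0) = g (n, r, 0) := by
    intro r hr
    apply hfg
    have : r ≤ q p n := le_trans (Nat.le_self_pow (by norm_num) r) hr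
    exact mem_product.2 ⟨mem_singleton_self _, mem_product.2
      ⟨mem_range.2 (by show r < q p n + n + 2; omega),
        mem_range.2 (by show 0 < q p n + n + 2; omega)⟩⟩
  simp only [Set.mem_ofPred_eq, DQPrime, cur]
  apply forall_congr'; intro r
  apply imp_congr_right; intro _
  apply imp_congr_right; intro hr
  rw [h1 r hr]

theorem dep_qn (p n : ℕ) : Dep (bx {n} (q p n + n + 2))
    {f : ℕ × ℕ × ℕ → ℕ | ¬ DQPrime p (cur f n) n} := by
  intro f g hfg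
  exact not_congr (dep_qp p n f g hfg)

/-- The property `DQPrime` of the digits. -/
def PQ (p n : ℕ) : Set (ℕ × ℕ × ℕ → ℕ) := {f | DQPrime p (cur f n) n}

/-- Its negation. -/
def PN (p n : ℕ) : Set (ℕ × ℕ × ℕ → ℕ) := {f | ¬ DQPrime p (cur f n) n}

/-- Every zero after the first one is the next zero of an earlier zero. -/
theorem prev {p : ℕ} (hp : 1 ≤ p) (T : ℕ → ℕ → ℕ → ℕ) {n : ℕ} (hn : 3 ≤ n)
    (h0 : dseq p T n = 0) : ∃ z, 2 ≤ z ∧ z < n ∧ dseq p T z = 0 ∧ nextZero p T z = n := by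
  classical
  have hne : ((range n).filter fun z => 2 ≤ z ∧ dseq p T z = 0).Nonempty :=
    ⟨2, by simp only [mem_filter, mem_range]; exact ⟨by omega, le_rfl, dseq_two p T⟩⟩
  obtain ⟨z, hz, hmax⟩ := Finset.exists_max_image _ (fun z => z) hne
  simp only [mem_filter, mem_range] at hz hmax
  refine ⟨z, hz.2.1, hz.1, hz.2.2, ?_⟩
  obtain ⟨h1, h2⟩ := dseq_next hp T (z := z) (by omega) hz.2.2
  have hlt := lt_nextZero p T z
  rcases lt_trichotomy (nextZero p T z) n with h | h | h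
  · have := hmax (nextZero p T z) ⟨h, by omega, h1⟩
    omega
  · exact h
  · exact absurd h0 (h2 n hz.1 h)

/-- All but finitely many zeros are prime for the digits. -/
theorem np_zero {p : ℕ} (hp : p.Prime) {T : ℕ → ℕ → ℕ → ℕ}
    (hω : ∀ᶠ z in Filter.atTop, dseq p T z = 0 → GoodRun p T z) :
    ∃ N, ∀ n ≥ N, dseq p T n = 0 → DNPrime (T n) n := by
  have hp1 : 1 ≤ p := hp.one_lt.le
  rw [Filter.eventually_atTop] at hω
  obtain ⟨N, hN⟩ := hω
  refine ⟨lev p N + 3, ?_⟩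
  intro n hn h0
  obtain ⟨z, hz2, hzn, hz0, hnext⟩ := prev hp1 T (by omega) h0
  have hle := nextZero_le hp1 T (z := z) (by omega)
  have hzN : N ≤ z := by
    by_contra hlt
    push Not at hlt
    have : lev p z ≤ lev p N := by
      unfold lev
      have := Nat.pow_le_pow_left (show z + 1 ≤ N + 1 by omega) p
      omega
    omega
  have hgood := (hN z hzN hz0).2
  rw [hnext] at hgood hle
  intro r hr hr2 h0
  have hrn : r ≤ n := le_trans (Nat.le_self_pow (by norm_num) r) hr2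
  apply hgood r hr (by omega)
  rw [h0]; unfold Root; simp; rfl

end PropAux

open Classical in
/-- D10: from `ae_density` for `DQPrime` and its negation (`step_prime`, `step_comp`), `all_good`. -/
theorem proportion_of {p : ℕ} (hp : p.Prime) (h5 : 5 ≤ p) (h : Res μ T)
    (hdens : ∀ {P : ℕ → Set (ℕ × ℕ × ℕ → ℕ)}
      (_ : ∀ n, ∃ R, Dep (bx {n} R) (P n)) {q' : ℝ} (_ : 0 ≤ q') (_ : q' ≤ 1) {z₂ : ℕ}
      (_ : ∀ z ≥ z₂, ∀ (n R : ℕ) (A : Set (ℕ × ℕ × ℕ → ℕ)),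
        Dep (bx (range ((lev p z + 3) / 4)) R) A →
        Pr μ T (A ∩ {f | (GoodRun p (cur f) z ∧ nextZero p (cur f) z = n) ∧ f ∈ P n})
          ≤ q' * Pr μ T (A ∩ {f | GoodRun p (cur f) z ∧ nextZero p (cur f) z = n}))
      {α : ℝ} (_ : q' < α),
      ∀ᵐ ω ∂μ, ∀ᶠ X : ℕ in atTop,
        (#{n ∈ Icc 1 X | dseq p (res T ω) n = 0 ∧ (fun i => T i ω) ∈ P n} : ℝ)
          ≤ α * #{n ∈ Icc 1 X | dseq p (res T ω) n = 0})
    (hprime : ∀ {ε : ℝ} (_ : 0 < ε), ∃ z₂ : ℕ, ∀ z ≥ z₂, ∀ (n R : ℕ) (A : Set (ℕ × ℕ × ℕ → ℕ)),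
      Dep (bx (range ((lev p z + 3) / 4)) R) A →
      Pr μ T (A ∩ {f | (GoodRun p (cur f) z ∧ nextZero p (cur f) z = n) ∧ DQPrime p (cur f n) n})
        ≤ (2 / ((p : ℝ) - 1) + ε) *
          Pr μ T (A ∩ {f | GoodRun p (cur f) z ∧ nextZero p (cur f) z = n}))
    (hcomp : ∀ {ε : ℝ} (_ : 0 < ε), ∃ z₂ : ℕ, ∀ z ≥ z₂, ∀ (n R : ℕ) (A : Set (ℕ × ℕ × ℕ → ℕ)),
      Dep (bx (range ((lev p z + 3) / 4)) R) A →
      Pr μ T (A ∩ {f | (GoodRun p (cur f) z ∧ nextZero p (cur f) z = n) ∧ ¬ DQPrime p (cur f n) n})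
        ≤ (1 - 2 / ((p : ℝ) - 1) + ε) *
          Pr μ T (A ∩ {f | GoodRun p (cur f) z ∧ nextZero p (cur f) z = n}))
    (hzeros : ∀ T : ℕ → ℕ → ℕ → ℕ,
      Tendsto (fun X : ℕ => (#{n ∈ Icc 1 X | dseq p T n = 0} : ℝ)) atTop atTop) :
    ∀ᵐ ω ∂μ, Tendsto (fun X : ℕ =>
      (#{n ∈ Icc 1 X | dseq p (res T ω) n = 0 ∧ DNPrime (res T ω n) n ∧ DQPrime p (res T ω n) n} : ℝ)
        / #{n ∈ Icc 1 X | dseq p (res T ω) n = 0}) atTop (𝓝 (2 / ((p : ℝ) - 1))) := by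
  set θ : ℝ := 2 / ((p : ℝ) - 1) with hθ
  have hp5 : (5 : ℝ) ≤ p := by exact_mod_cast h5
  have hθ0 : 0 < θ := by rw [hθ]; apply div_pos two_pos; linarith
  have hθ1 : θ ≤ 1 / 2 := by
    rw [hθ, div_le_iff₀ (by linarith)]; linarith
  have hk0 : ∀ k : ℕ, 0 < θ / (k + 1) := fun k => by positivity
  have hk1 : ∀ k : ℕ, θ / (k + 1) ≤ θ := fun k => by
    apply div_le_self hθ0.le
    have : (0 : ℝ) ≤ k := Nat.cast_nonneg k
    linarith
  have hA : ∀ k : ℕ, ∀ᵐ ω ∂μ, ∀ᶠ X : ℕ in atTop,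
      (#{n ∈ Icc 1 X | dseq p (res T ω) n = 0 ∧
        (fun i => T i ω) ∈ PropAux.PQ p n} : ℝ)
        ≤ (θ + 2 * (θ / (k + 1))) * #{n ∈ Icc 1 X | dseq p (res T ω) n = 0} := by
    intro k
    obtain ⟨z₂, hz₂⟩ := hprime (hk0 k)
    refine hdens (P := PropAux.PQ p) (α := θ + 2 * (θ / (k + 1)))
      (fun n => ⟨_, PropAux.dep_qp p n⟩) (q' := θ + θ / (k + 1)) (by have := hk0 k; linarith)
      (by have := hk1 k; linarith) (z₂ := z₂) ?_ (by have := hk0 k; linarith)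
    intro z hz n R A hdep
    exact hz₂ z hz n R A hdep
  have hB : ∀ k : ℕ, ∀ᵐ ω ∂μ, ∀ᶠ X : ℕ in atTop,
      (#{n ∈ Icc 1 X | dseq p (res T ω) n = 0 ∧
        (fun i => T i ω) ∈ PropAux.PN p n} : ℝ)
        ≤ (1 - θ + 2 * (θ / (k + 1))) * #{n ∈ Icc 1 X | dseq p (res T ω) n = 0} := by
    intro k
    obtain ⟨z₂, hz₂⟩ := hcomp (hk0 k)
    refine hdens (P := PropAux.PN p) (α := 1 - θ + 2 * (θ / (k + 1)))
      (fun n => ⟨_, PropAux.dep_qn p n⟩) (q' := 1 - θ + θ / (k + 1)) (by have := hk0 k; linarith)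
      (by have := hk1 k; linarith) (z₂ := z₂) ?_ (by have := hk0 k; linarith)
    intro z hz n R A hdep
    exact hz₂ z hz n R A hdep
  rw [← ae_all_iff] at hA hB
  filter_upwards [hA, hB, all_good hp h] with ω hAω hBω hgood
  obtain ⟨N, hN⟩ := PropAux.np_zero hp hgood
  have hfind : ∀ ε : ℝ, 0 < ε → ∃ k : ℕ, 2 * (θ / ((k : ℝ) + 1)) ≤ ε := by
    intro ε hε
    obtain ⟨k, hk⟩ := exists_nat_gt (2 * θ / ε)
    refine ⟨k, ?_⟩
    have hkpos : (0 : ℝ) < (k : ℝ) + 1 := by positivity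
    rw [← mul_div_assoc, div_le_iff₀ hkpos]
    rw [div_lt_iff₀ hε] at hk
    nlinarith
  apply PropAux.core (hzeros (res T ω))
  · intro ε hε
    obtain ⟨k, hk⟩ := hfind ε hε
    filter_upwards [hAω k] with X hX
    have hsub : (#{n ∈ Icc 1 X | dseq p (res T ω) n = 0 ∧ DNPrime (res T ω n) n ∧
        DQPrime p (res T ω n) n} : ℝ) ≤ #{n ∈ Icc 1 X | dseq p (res T ω) n = 0 ∧
        (fun i => T i ω) ∈ PropAux.PQ p n} := by
      exact_mod_cast card_le_card (fun n hn => by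
        rw [mem_filter] at hn ⊢
        exact ⟨hn.1, hn.2.1, hn.2.2.2⟩)
    have hz : (0 : ℝ) ≤ #{n ∈ Icc 1 X | dseq p (res T ω) n = 0} := Nat.cast_nonneg _
    calc _ ≤ _ := hsub
      _ ≤ _ := hX
      _ ≤ _ := mul_le_mul_of_nonneg_right (by linarith) hz
  · intro ε hε
    obtain ⟨k, hk⟩ := hfind ε hε
    refine ⟨N, ?_⟩
    filter_upwards [hBω k] with X hX
    have hz : (0 : ℝ) ≤ #{n ∈ Icc 1 X | dseq p (res T ω) n = 0} := Nat.cast_nonneg _
    have hsub : (#{n ∈ Icc 1 X | dseq p (res T ω) n = 0} : ℝ) ≤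
        #{n ∈ Icc 1 X | dseq p (res T ω) n = 0 ∧ DNPrime (res T ω n) n ∧
          DQPrime p (res T ω n) n} + #{n ∈ Icc 1 X | dseq p (res T ω) n = 0 ∧
        (fun i => T i ω) ∈ PropAux.PN p n} + N := by
      have h1 : #{n ∈ Icc 1 X | dseq p (res T ω) n = 0} ≤
        #({n ∈ Icc 1 X | dseq p (res T ω) n = 0 ∧ DNPrime (res T ω n) n ∧
          DQPrime p (res T ω n) n} ∪ {n ∈ Icc 1 X | dseq p (res T ω) n = 0 ∧
        (fun i => T i ω) ∈ PropAux.PN p n} ∪ range N) := by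
        apply card_le_card
        intro n hn
        rw [mem_filter] at hn
        rw [mem_union, mem_union, mem_filter, mem_filter, mem_range]
        by_cases hnN : n < N
        · exact Or.inr hnN
        · left
          by_cases hq : DQPrime p (res T ω n) n
          · exact Or.inl ⟨hn.1, hn.2, hN n (not_lt.1 hnN) hn.2, hq⟩
          · exact Or.inr ⟨hn.1, hn.2, hq⟩
      have h2 := h1.trans ((card_union_le _ _).trans (Nat.add_le_add_right (card_union_le _ _) _))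
      rw [card_range] at h2
      exact_mod_cast h2
    have hmul : (1 - θ + 2 * (θ / ((k : ℝ) + 1))) * #{n ∈ Icc 1 X | dseq p (res T ω) n = 0}
        ≤ (1 - θ + ε) * #{n ∈ Icc 1 X | dseq p (res T ω) n = 0} :=
      mul_le_mul_of_nonneg_right (by linarith) hz
    nlinarith [hsub, hX, hmul]

end Pool.Agent.L5helper32.GP
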