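import Pool.Agent.L5helper25.GR.Exist

set_option autoImplicit false

open Finset MeasureTheory ProbabilityTheory

namespace Pool.Agent.L5helper32.GR

theorem exists_res : ∃ (Ω : Type) (_ : MeasurableSpace Ω) (μ : Measure Ω)
    (T : ℕ × ℕ → Ω → ℕ), IsProbabilityMeasure μ ∧ Res μ T := by
  refine ⟨(i : ℕ × ℕ) → ℕ, inferInstance,
    Measure.infinitePi (fun i : ℕ × ℕ => law i.2), fun i ω => ω i, inferInstance,
    ⟨fun i => measurable_pi_apply i, ?_, fun c r hr t ht => ?_⟩⟩
  · exact iIndepFun_infinitePi (P := fun i : ℕ × ℕ => law i.2) (X := fun _ x => x)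
      fun _ => measurable_id
  · have h1 := (measurePreserving_eval_infinitePi (fun i : ℕ × ℕ => law i.2)
      (c, r)).measureReal_preimage (s := {t}) (measurableSet_singleton t).nullMeasurableSet
    rw [← law_real ht, ← h1]
    rfl

end Pool.Agent.L5helper32.GR
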