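import Pool.Agent.L5helper66.TD.Defs

set_option autoImplicit false

open scoped TensorProduct RealInnerProductSpace

namespace Pool.Agent.L5helper50.TD

open Pool.Agent.L5helper66.TD

lemma ang_add (x y : ℝ) : ang (x + y) = ang x + ang y := rfl

lemma ang_pi : ang Real.pi = 0 := by
  unfold ang
  exact (QuotientAddGroup.eq_zero_iff _).2 (AddSubgroup.mem_zmultiples _)

/-- an additive map on the angles -/
noncomputable def gAng (g : ℝ →ₗ[ℚ] ℝ) (hg : g Real.pi = 0) : Ang →+ ℝ :=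
  QuotientAddGroup.lift (AddSubgroup.zmultiples Real.pi) g.toAddMonoidHom (by
    intro x hx
    obtain ⟨n, rfl⟩ := AddSubgroup.mem_zmultiples_iff.1 hx
    rw [AddMonoidHom.mem_ker]
    rw [map_zsmul]
    show n • g Real.pi = 0
    rw [hg, smul_zero])

lemma gAng_ang (g : ℝ →ₗ[ℚ] ℝ) (hg : g Real.pi = 0) (x : ℝ) : gAng g hg (ang x) = g x := rfl

lemma pairing (f g : ℝ →ₗ[ℚ] ℝ) (hg : g Real.pi = 0) (k l : ℕ) (a b x y : ℝ)
    (h : k • (a ⊗ₜ[ℤ] ang x) + l • (b ⊗ₜ[ℤ] ang y) = 0) :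
    (k : ℝ) * (f a * g x) + l * (f b * g y) = 0 := by
  set B : ℝ →ₗ[ℤ] Ang →ₗ[ℤ] ℝ := LinearMap.mk₂ ℤ (fun r θ => f r * gAng g hg θ)
    (fun r s θ => by rw [map_add]; ring)
    (fun c r θ => by rw [map_zsmul, smul_mul_assoc])
    (fun r θ θ' => by rw [map_add]; ring)
    (fun c r θ => by rw [map_zsmul, mul_smul_comm]) with hB
  have hv : ∀ r z : ℝ, TensorProduct.lift B (r ⊗ₜ[ℤ] ang z) = f r * g z := by
    intro r z
    rw [TensorProduct.lift.tmul, hB, LinearMap.mk₂_apply, gAng_ang]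
  have h1 := congrArg (TensorProduct.lift B) h
  rw [map_add, map_nsmul, map_nsmul, hv, hv, map_zero, nsmul_eq_mul, nsmul_eq_mul] at h1
  exact h1

/-- a functional which separates -/
lemma exists_fun (u v : ℝ) (h : ¬ ∃ r : ℚ, u = r * v) : ∃ f : ℝ →ₗ[ℚ] ℝ, f u ≠ 0 ∧ f v = 0 := by
  have h1 : u ∉ Submodule.span ℚ ({v} : Set ℝ) := by
    intro h2
    obtain ⟨r, hr⟩ := Submodule.mem_span_singleton.1 h2
    exact h ⟨r, by rw [← hr, Rat.smul_def]⟩
  obtain ⟨f, hf, hf2⟩ := Submodule.exists_le_ker_of_notMem h1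
  refine ⟨(Algebra.linearMap ℚ ℝ).comp f, ?_, ?_⟩
  · intro h0
    apply hf
    have h0' : ((f u : ℚ) : ℝ) = 0 := h0
    exact_mod_cast h0'
  · have h2 : f v = 0 := hf2 (Submodule.mem_span_singleton_self v)
    show ((f v : ℚ) : ℝ) = 0
    rw [h2]
    norm_num

theorem tens (k l : ℕ) (hk : 0 < k) (hl : 0 < l) (a b x y : ℝ) (ha : 0 < a) (hb : 0 < b)
    (h : k • (a ⊗ₜ[ℤ] ang x) + l • (b ⊗ₜ[ℤ] ang y) = 0) :
    (Irrational (b / a) → (∃ r : ℚ, x = r * Real.pi) ∧ ∃ r : ℚ, y = r * Real.pi) ∧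
    (∀ p q : ℕ, 0 < p → 0 < q → b / a = p / q → ∃ r : ℚ, k * q * x + l * p * y = r * Real.pi) := by
  have hk' : (k : ℝ) ≠ 0 := by exact_mod_cast hk.ne'
  have hl' : (l : ℝ) ≠ 0 := by exact_mod_cast hl.ne'
  refine ⟨fun hirr => ⟨?_, ?_⟩, ?_⟩
  · by_contra hx
    obtain ⟨g, hg1, hg2⟩ := exists_fun x Real.pi hx
    obtain ⟨f, hf1, hf2⟩ := exists_fun a b (by
      rintro ⟨r, hr⟩
      have hr0 : (r : ℝ) ≠ 0 := by
        intro h0
        rw [h0, zero_mul] at hr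
        exact ha.ne' hr
      apply hirr
      refine ⟨r⁻¹, ?_⟩
      rw [hr]
      push_cast
      field_simp)
    have h1 := pairing f g hg2 k l a b x y h
    rw [hf2, zero_mul, mul_zero, add_zero] at h1
    exact (mul_ne_zero hk' (mul_ne_zero hf1 hg1)) h1
  · by_contra hy
    obtain ⟨g, hg1, hg2⟩ := exists_fun y Real.pi hy
    obtain ⟨f, hf1, hf2⟩ := exists_fun b a (by
      rintro ⟨r, hr⟩
      apply hirr
      refine ⟨r, ?_⟩
      rw [hr]
      field_simp)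
    have h1 := pairing f g hg2 k l a b x y h
    rw [hf2, zero_mul, mul_zero, zero_add] at h1
    exact (mul_ne_zero hl' (mul_ne_zero hf1 hg1)) h1
  · intro p q hp hq hpq
    by_contra hxy
    obtain ⟨g, hg1, hg2⟩ := exists_fun (k * q * x + l * p * y) Real.pi hxy
    have h1 := pairing LinearMap.id g hg2 k l a b x y h
    simp only [LinearMap.id_apply] at h1
    apply hg1
    have hcast : ∀ (n : ℕ) (z : ℝ), g ((n : ℝ) * z) = n * g z := by
      intro n z
      rw [← nsmul_eq_mul, map_nsmul, nsmul_eq_mul]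
    rw [map_add, mul_assoc, mul_assoc, hcast, hcast, hcast, hcast]
    have hq' : (q : ℝ) ≠ 0 := by exact_mod_cast hq.ne'
    have h2 : b * q = p * a := by
      rw [div_eq_div_iff ha.ne' hq'] at hpq
      exact hpq
    have h3 : a * ((k : ℝ) * (q * g x) + l * (p * g y)) = 0 := by
      have : a * ((k : ℝ) * (q * g x) + l * (p * g y)) = q * (k * (a * g x)) + l * ((p * a) * g y) := by ring
      rw [this, ← h2]
      have h4 : q * ((k : ℝ) * (a * g x)) + l * (b * q * g y) = q * (k * (a * g x) + l * (b * g y)) := by ring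
      rw [h4, h1, mul_zero]
    exact (mul_eq_zero.1 h3).resolve_left ha.ne'

theorem tens_zero (a b : ℝ) :
    2 • (a ⊗ₜ[ℤ] ang (Real.pi / 2)) + 4 • (b ⊗ₜ[ℤ] ang (Real.pi / 3)) = 0 := by
  have h1 : 2 • (a ⊗ₜ[ℤ] ang (Real.pi / 2)) = 0 := by
    rw [two_nsmul, ← TensorProduct.tmul_add, ← ang_add, show Real.pi / 2 + Real.pi / 2 = Real.pi by ring,
      ang_pi, TensorProduct.tmul_zero]
  have h2 : b ⊗ₜ[ℤ] ang (Real.pi / 3) = 0 := by
    have e : b = b / 3 + b / 3 + b / 3 := by ring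
    calc b ⊗ₜ[ℤ] ang (Real.pi / 3) = (b / 3 + b / 3 + b / 3) ⊗ₜ[ℤ] ang (Real.pi / 3) := by rw [← e]
      _ = (b / 3) ⊗ₜ[ℤ] (ang (Real.pi / 3) + ang (Real.pi / 3) + ang (Real.pi / 3)) := by
          rw [TensorProduct.add_tmul, TensorProduct.add_tmul, TensorProduct.tmul_add,
            TensorProduct.tmul_add]
      _ = 0 := by
          rw [← ang_add, ← ang_add, show Real.pi / 3 + Real.pi / 3 + Real.pi / 3 = Real.pi by ring,
            ang_pi, TensorProduct.tmul_zero]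
  rw [h1, h2, smul_zero, add_zero]

end Pool.Agent.L5helper50.TD
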